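import Pool.Agent.H334R5.Clo.Alg

/-!
# The algorithm runs in polynomial time
-/

set_option autoImplicit false

namespace Pool.Agent.H334R5.Clo

open Pool.Agent.NPC
open Pool.Agent.H251R5.PQ (Ver)

section Basic

variable {α β : Type} [TEnc α] [TEnc β]

omit [TEnc β] in
theorem take_eq : ∀ (l : List β) (k n : ℕ),
    ((l.zipIdx k).filter (fun p => decide (p.2 < k + n))).map Prod.fst = l.take n := by
  intro l
  induction l with
  | nil => intro k n; simp
  | cons b l ih =>
    intro k n
    cases n with
    | zero =>
      rw [List.take_zero, List.map_eq_nil_iff, List.filter_eq_nil_iff]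
      rintro ⟨c, j⟩ hc
      have := List.le_snd_of_mem_zipIdx hc
      simp at this ⊢
      omega
    | succ n =>
      have h1 := ih (k + 1) n
      simp only [List.zipIdx_cons, List.take_succ_cons]
      rw [List.filter_cons_of_pos (by simp), List.map_cons]
      congr 1
      rw [← h1]
      congr 2
      funext p
      congr 1
      apply propext
      omega

omit [TEnc β] in
theorem drop_eq : ∀ (l : List β) (k n : ℕ),
    ((l.zipIdx k).filter (fun p => decide (k + n ≤ p.2))).map Prod.fst = l.drop n := by
  intro l
  induction l with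
  | nil => intro k n; simp
  | cons b l ih =>
    intro k n
    cases n with
    | zero =>
      rw [List.drop_zero]
      have : ((b :: l).zipIdx k).filter (fun p => decide (k + 0 ≤ p.2)) = (b :: l).zipIdx k := by
        rw [List.filter_eq_self]
        rintro ⟨c, j⟩ hc
        have := List.le_snd_of_mem_zipIdx hc
        simp at this ⊢
        omega
      rw [this, List.zipIdx_map_fst]
    | succ n =>
      have h1 := ih (k + 1) n
      simp only [List.zipIdx_cons, List.drop_succ_cons]
      rw [List.filter_cons_of_neg (by simp)]
      rw [← h1]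
      congr 2
      funext p
      congr 1
      apply propext
      omega

@[fun_prop]
theorem poly_take {l : α → List β} {n : α → ℕ} (hl : Poly l) (hn : Poly n) :
    Poly (fun a => (l a).take (n a)) := by
  have h : Poly (fun a => (((l a).zipIdx).filter (fun p => decide (p.2 < n a))).map Prod.fst) := by
    fun_prop
  exact h.congr fun a => by simpa using take_eq (l a) 0 (n a)

@[fun_prop]
theorem poly_drop {l : α → List β} {n : α → ℕ} (hl : Poly l) (hn : Poly n) :
    Poly (fun a => (l a).drop (n a)) := by
  have h : Poly (fun a => (((l a).zipIdx).filter (fun p => decide (n a ≤ p.2))).map Prod.fst) := by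
    fun_prop
  exact h.congr fun a => by simpa using drop_eq (l a) 0 (n a)

theorem sz_sublist {l l' : List β} (h : l'.Sublist l) : sz l' ≤ sz l := by
  induction h with
  | slnil => exact le_rfl
  | cons a _ ih => simp; omega
  | cons_cons a _ ih => simp; omega

end Basic

section Alg

variable {α : Type} [TEnc α] {G : α → List Bool → Bool × List (List Bool)}
  {D : List (List Bool) → List Bool → Bool}

theorem poly_posZ (hG : Poly (fun p : α × List Bool => G p.1 p.2)) :
    Poly (fun p : α × List (List Bool) => posZ (G p.1) p.2) := by
  unfold posZ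
  refine Poly.flatMap (F := fun (p : α × List (List Bool)) u => bif (G p.1 u).1 then (G p.1 u).2
    else []) (Poly.snd Poly.id) ?_
  have h : Poly (fun p : (α × List (List Bool)) × List Bool => G p.1.1 p.2) :=
    hG.comp (Poly.pair (Poly.fst (Poly.fst Poly.id)) (Poly.snd Poly.id))
  exact Poly.cond (Poly.fst h) (Poly.snd h) (NPC.Poly.const _)

theorem poly_negZ (hG : Poly (fun p : α × List Bool => G p.1 p.2)) :
    Poly (fun p : α × List (List Bool) => negZ (G p.1) p.2) := by
  unfold negZ
  refine Poly.flatMap (F := fun (p : α × List (List Bool)) u => bif (G p.1 u).1 then []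
    else (G p.1 u).2) (Poly.snd Poly.id) ?_
  have h : Poly (fun p : (α × List (List Bool)) × List Bool => G p.1.1 p.2) :=
    hG.comp (Poly.pair (Poly.fst (Poly.fst Poly.id)) (Poly.snd Poly.id))
  exact Poly.cond (Poly.fst h) (NPC.Poly.const _) (Poly.snd h)

theorem poly_test (hG : Poly (fun p : α × List Bool => G p.1 p.2))
    (hD : Poly (fun p : List (List Bool) × List Bool => D p.1 p.2)) :
    Poly (fun p : α × List (List Bool) × List Bool × List (List Bool) =>
      test (G p.1) D p.2.1 p.2.2.1 p.2.2.2) := by
  unfold test
  refine Poly.or ?_ (Poly.and (Poly.not ?_) ?_)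
  · refine Poly.optElim (o := fun p : α × List (List Bool) × List Bool × List (List Bool) =>
      p.2.2.2.head?) (g := fun _ => false) (h := fun p v => (G p.1 v).1 &&
        (G p.1 v).2.all (fun y => D (posZ (G p.1) (p.2.1 ++ [p.2.2.1])) y)) (by fun_prop)
      (NPC.Poly.const _) ?_
    have h1 : Poly (fun p : (α × List (List Bool) × List Bool × List (List Bool)) × List Bool =>
        G p.1.1 p.2) := hG.comp (Poly.pair (Poly.fst (Poly.fst Poly.id)) (Poly.snd Poly.id))
    refine Poly.and (Poly.fst h1) ?_
    refine Poly.all (p := fun (p : (α × List (List Bool) × List Bool × List (List Bool)) × List Bool)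
      y => D (posZ (G p.1.1) (p.1.2.1 ++ [p.1.2.2.1])) y) (Poly.snd h1) ?_
    refine Poly.comp (g := fun p : List (List Bool) × List Bool => D p.1 p.2)
      (f := fun p : ((α × List (List Bool) × List Bool × List (List Bool)) × List Bool) × List Bool =>
        (posZ (G p.1.1.1) (p.1.1.2.1 ++ [p.1.1.2.2.1]), p.2)) hD (Poly.pair ?_ (Poly.snd Poly.id))
    exact Poly.comp (g := fun p : α × List (List Bool) => posZ (G p.1) p.2)
      (f := fun p : ((α × List (List Bool) × List Bool × List (List Bool)) × List Bool) × List Bool =>
        (p.1.1.1, p.1.1.2.1 ++ [p.1.1.2.2.1])) (poly_posZ hG) (by fun_prop)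
  · exact Poly.fst (Poly.comp (g := fun p : α × List Bool => G p.1 p.2)
      (f := fun p : α × List (List Bool) × List Bool × List (List Bool) => (p.1, p.2.2.1)) hG
      (by fun_prop))
  · have h1 : Poly (fun p : α × List (List Bool) × List Bool × List (List Bool) => G p.1 p.2.2.1) :=
      Poly.comp (g := fun p : α × List Bool => G p.1 p.2)
        (f := fun p : α × List (List Bool) × List Bool × List (List Bool) => (p.1, p.2.2.1)) hG
        (by fun_prop)
    refine Poly.all (p := fun (p : α × List (List Bool) × List Bool × List (List Bool)) y =>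
      D (negZ (G p.1) p.2.2.2) y) (Poly.snd h1) ?_
    refine Poly.comp (g := fun p : List (List Bool) × List Bool => D p.1 p.2)
      (f := fun p : (α × List (List Bool) × List Bool × List (List Bool)) × List Bool =>
        (negZ (G p.1.1) p.1.2.2.2, p.2)) hD (Poly.pair ?_ (Poly.snd Poly.id))
    exact Poly.comp (g := fun p : α × List (List Bool) => negZ (G p.1) p.2)
      (f := fun p : (α × List (List Bool) × List Bool × List (List Bool)) × List Bool =>
        (p.1.1, p.1.2.2.2)) (poly_negZ hG) (by fun_prop)

theorem poly_testAt (hG : Poly (fun p : α × List Bool => G p.1 p.2))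
    (hD : Poly (fun p : List (List Bool) × List Bool => D p.1 p.2)) :
    Poly (fun p : (α × List (List Bool)) × ℕ => testAt (G p.1.1) D p.1.2 p.2) := by
  unfold testAt
  refine Poly.optElim (o := fun p : (α × List (List Bool)) × ℕ => (p.1.2.drop p.2).head?)
    (g := fun _ => false)
    (h := fun p u => test (G p.1.1) D (p.1.2.take p.2) u (p.1.2.drop (p.2 + 1)))
    (by fun_prop) (NPC.Poly.const _) ?_
  exact Poly.comp (g := fun p : α × List (List Bool) × List Bool × List (List Bool) =>
      test (G p.1) D p.2.1 p.2.2.1 p.2.2.2)
    (f := fun p : ((α × List (List Bool)) × ℕ) × List Bool =>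
      (p.1.1.1, p.1.1.2.take p.1.2, p.2, p.1.1.2.drop (p.1.2 + 1))) (poly_test hG hD) (by fun_prop)

theorem poly_prune (hG : Poly (fun p : α × List Bool => G p.1 p.2))
    (hD : Poly (fun p : List (List Bool) × List Bool => D p.1 p.2)) :
    Poly (fun p : α × List (List Bool) => prune (G p.1) D p.2) := by
  unfold prune
  refine Poly.optElim (o := fun p : α × List (List Bool) =>
      ((List.range p.2.length).filter (testAt (G p.1) D p.2)).head?)
    (g := fun p => p.2) (h := fun p t => p.2.take t ++ p.2.drop (t + 1)) ?_ (by fun_prop)
    (by fun_prop)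
  refine Poly.head? (Poly.filter (p := fun (p : α × List (List Bool)) t => testAt (G p.1) D p.2 t)
    (Poly.range_length (Poly.snd Poly.id)) (poly_testAt hG hD))

theorem poly_pstep (hG : Poly (fun p : α × List Bool => G p.1 p.2))
    (hD : Poly (fun p : List (List Bool) × List Bool => D p.1 p.2)) {K : α → ℕ} (hK : Poly K) :
    Poly (fun p : α × List (List Bool) => pstep (G p.1) D (K p.1) p.2) := by
  unfold pstep
  exact Poly.ite (Poly.decide_lt (hK.comp (Poly.fst Poly.id)) (Poly.length (Poly.snd Poly.id)))
    (poly_prune hG hD) (Poly.snd Poly.id)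

theorem poly_ext {C : α → List (List Bool)} (hC : Poly C) : Poly (fun a => ext (C a)) := by
  unfold ext
  fun_prop

theorem poly_level (hG : Poly (fun p : α × List Bool => G p.1 p.2))
    (hD : Poly (fun p : List (List Bool) × List Bool => D p.1 p.2)) {K : α → ℕ} (hK : Poly K) :
    Poly (fun p : α × List (List Bool) => level (G p.1) D (K p.1) p.2) := by
  unfold level
  have he : Poly (fun p : α × List (List Bool) => ext p.2) := poly_ext (Poly.snd Poly.id)
  obtain ⟨q, hq⟩ := he.sz_le
  refine Poly.iterLen (l := fun p : α × List (List Bool) => ext p.2)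
    (s := fun p : α × List (List Bool) => ext p.2)
    (F := fun p C => pstep (G p.1) D (K p.1) C) he he ?_ q ?_
  · exact Poly.comp (g := fun p : α × List (List Bool) => pstep (G p.1) D (K p.1) p.2)
      (f := fun p : (α × List (List Bool)) × List (List Bool) => (p.1.1, p.2))
      (poly_pstep hG hD hK) (by fun_prop)
  · intro p k _
    exact (sz_sublist (pstep_iter_sublist _ _ _ _ _)).trans (hq p)

end Alg

end Pool.Agent.H334R5.Clo
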