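import Pool.Agent.H334R5.Clo.PolyPart

/-!
# Sets closed under a rule with short chains are not hard for `NP`, unless `P = NP`
-/

set_option autoImplicit false

namespace Pool.Agent.H334R5.Clo

open Pool.Agent.NPC
open Pool.Agent.H251R5.PQ (Ver t_PAD)

theorem left_inNPP (V : Ver) : InNPP (Left V) := by
  have hn : Poly V.n := V.hn.toPoly
  obtain ⟨q, hq⟩ := V.hn.sz_le
  have hx : Poly (fun z : (List Bool × List Bool) × List Bool => z.1.1) :=
    Poly.fst (Poly.fst Poly.id)
  have hu : Poly (fun z : (List Bool × List Bool) × List Bool => z.1.2) :=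
    Poly.snd (Poly.fst Poly.id)
  have hw : Poly (fun z : (List Bool × List Bool) × List Bool => z.2) := Poly.snd Poly.id
  have hR : Poly (fun z : (List Bool × List Bool) × List Bool =>
      decide (z.2.length = V.n z.1.1) && (V.V z.1.1 z.2 &&
        decide (num z.1.2 ≤ num (z.2.take z.1.2.length)))) := by
    refine Poly.and (Poly.decide_eq (Poly.length hw) (hn.comp hx)) (Poly.and ?_ ?_)
    · exact Poly.comp (f := fun z : (List Bool × List Bool) × List Bool => (z.1.1, z.2)) V.hV
        (Poly.pair hx hw)
    · unfold num
      exact Poly.decide_le (Poly.valBits (Poly.reverse hu))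
        (Poly.valBits (Poly.reverse (poly_take hw (Poly.length hu))))
  refine inNPP_of hR (4 * q + 1) fun t => ?_
  unfold Left
  constructor
  · rintro ⟨w, h1, h2, h3⟩
    refine ⟨w, ?_, ?_⟩
    · have e1 := sz_listBool_le w
      have e2 := length_lt_sz (List.replicate (V.n t.1) ())
      have e3 := hq t.1
      rw [List.length_replicate] at e2
      have e4 : sz t.1 ≤ sz t := by
        obtain ⟨x, u⟩ := t
        simp only [sz_pair]
        omega
      have e5 := eval_mono q e4
      simp only [Polynomial.eval_add, Polynomial.eval_mul, Polynomial.eval_one,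
        Polynomial.eval_ofNat]
      omega
    · simp only [Bool.and_eq_true, decide_eq_true_eq]
      exact ⟨h1, h2, h3⟩
  · rintro ⟨w, -, h⟩
    simp only [Bool.and_eq_true, decide_eq_true_eq] at h
    exact ⟨w, h.1, h.2.1, h.2.2⟩

/-- The main theorem. -/
theorem main {D' : List (List Bool) → List Bool → Prop}
    (hP : InPP (fun t : List (List Bool) × List Bool => D' t.1 t.2))
    (hmono : Monotone' D') (hchain : ShortChains D') {S : Set (List Bool)}
    (hclosed : ClosedUnder D' S) (hard : ∀ A : Set (List Bool), InNP A → SignedConjReduces A S) :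
    ∀ A : Set (List Bool), InNP A → InP A := by
  intro A hA
  obtain ⟨W, hW, hWD⟩ := hP.exists_test
  -- the rule as a polynomial-time test
  have hD : ∀ Z z, decide (W (bits ((Z, z) : List (List Bool) × List Bool)) = [true]) = true ↔
      D' Z z := fun Z z => by
    rw [decide_eq_true_eq]
    exact (hWD (Z, z)).symm
  have pD : Poly (fun t : List (List Bool) × List Bool =>
      decide (W (bits ((t.1, t.2) : List (List Bool) × List Bool)) = [true])) := by
    have h1 : PC (bits : List (List Bool) × List Bool → List Bool) (fun x : List Bool => x)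
        (fun t => W (bits t)) := by
      obtain ⟨c, p, h⟩ := H642R2.TMSim.polyTime_toPC hW
      exact ⟨c, p, fun a => h (bits a)⟩
    have h2 : Poly (fun t : List (List Bool) × List Bool => W (bits t)) :=
      PC.comp (g := fun x => x) (f := fun t : List (List Bool) × List Bool => W (bits t))
        PC.rawIn h1
    exact Poly.decide_eq h2 (NPC.Poly.const _)
  -- the verifier
  obtain ⟨V, hV⟩ := t_PAD A hA
  obtain ⟨r, hr, hrS⟩ := hard _ (left_inNPP V)
  have pr : Poly (fun t : List Bool × List Bool => r (bits t)) := by
    obtain ⟨c, p, h⟩ := H642R2.TMSim.polyTime_toPC hr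
    exact ⟨c, p, fun a => h (bits a)⟩
  have hG : ∀ x u : List Bool, Left V (x, u) ↔
      ((∀ y ∈ (r (bits ((x, u) : List Bool × List Bool))).2, y ∈ S) ↔
        (r (bits ((x, u) : List Bool × List Bool))).1 = true) := fun x u => by
    rw [← hrS, bits_mem_lang]
  obtain ⟨q, hq⟩ := pr.sz_le
  obtain ⟨p, hp⟩ := hchain
  -- the bounds
  have uN : UPoly (fun x : List Bool => q.eval ((4 * x.length + 1) + (4 * V.n x + 2))) :=
    UPoly.eval (UPoly.add (UPoly.add (UPoly.mul (UPoly.const 4) (UPoly.length Poly.id))
      (UPoly.const 1)) (UPoly.add (UPoly.mul (UPoly.const 4) V.hn) (UPoly.const 2))) q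
  have uK : UPoly (fun x : List Bool =>
      2 * p.eval (q.eval ((4 * x.length + 1) + (4 * V.n x + 2))) + 1) :=
    UPoly.add (UPoly.mul (UPoly.const 2) (UPoly.eval uN p)) (UPoly.const 1)
  set N : List Bool → ℕ := fun x => q.eval ((4 * x.length + 1) + (4 * V.n x + 2)) with hNdef
  set K : List Bool → ℕ := fun x => 2 * p.eval (N x) + 1 with hKdef
  set G : List Bool → List Bool → Bool × List (List Bool) :=
    fun x u => r (bits ((x, u) : List Bool × List Bool)) with hGdef
  set D : List (List Bool) → List Bool → Bool := fun Z z =>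
    decide (W (bits ((Z, z) : List (List Bool) × List Bool)) = [true]) with hDdef
  have hlen : ∀ x u : List Bool, u.length ≤ V.n x → ∀ z ∈ (G x u).2, z.length ≤ N x := by
    intro x u hu z hz
    have h1 := hq (x, u)
    have h2 : sz z < sz (r (bits ((x, u) : List Bool × List Bool))).2 := sz_le_of_mem hz
    have h3 : sz (r (bits ((x, u) : List Bool × List Bool))).2 ≤
        sz (r (bits ((x, u) : List Bool × List Bool))) := by
      obtain ⟨b, l⟩ := r (bits ((x, u) : List Bool × List Bool))
      simp only [sz_pair]
      omega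
    have h4 := length_lt_sz z
    have h5 : sz ((x, u) : List Bool × List Bool) ≤ (4 * x.length + 1) + (4 * V.n x + 2) := by
      have e1 := sz_listBool_le x
      have e2 := sz_listBool_le u
      simp only [sz_pair]
      omega
    have h6 := eval_mono q h5
    show z.length ≤ q.eval ((4 * x.length + 1) + (4 * V.n x + 2))
    omega
  have hinv : ∀ x : List Bool, ∀ i ≤ V.n x, Inv V x (K x) i ((level (G x) D (K x))^[i] [[]]) :=
    fun x => alg_inv hD hmono hclosed (N x) (p.eval (N x)) (hp (N x)) x (hG x)
      (le_refl (2 * p.eval (N x) + 1)) (hlen x)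
  -- the algorithm is polynomial
  have pG : Poly (fun t : List Bool × List Bool => G t.1 t.2) := pr
  have hlevel := poly_level (D := D) pG pD uK.toPoly
  obtain ⟨qn, hqn⟩ := V.hn.sz_le
  obtain ⟨qk, hqk⟩ := uK.sz_le
  have palg : Poly (fun x : List Bool => (level (G x) D (K x))^[V.n x] [[]]) := by
    refine (Poly.iterLen (l := fun x : List Bool => List.replicate (V.n x) ())
      (s := fun _ => [[]]) (F := fun x C => level (G x) D (K x) C) V.hn (NPC.Poly.const _)
      hlevel (qk * (4 * qn + 2) + 1) ?_).congr fun x => by rw [List.length_replicate]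
    intro x k hk
    rw [List.length_replicate] at hk
    have h1 := hinv x k hk
    have h2 := sz_le_length_mul ((level (G x) D (K x))^[k] [[]]) (4 * V.n x + 1) (by
      intro u hu
      have := h1.len u hu
      have := sz_listBool_le u
      omega)
    have h3 := h1.short
    have h4 := length_lt_sz (List.replicate (V.n x) ())
    have h5 := length_lt_sz (List.replicate (K x) ())
    rw [List.length_replicate] at h4 h5
    have h6 := hqn x
    have h7 := hqk x
    have h8 : K x ≤ qk.eval (sz x) := by omega
    have h9 : V.n x ≤ qn.eval (sz x) := by omega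
    simp only [Polynomial.eval_add, Polynomial.eval_mul, Polynomial.eval_one,
      Polynomial.eval_ofNat]
    calc _ ≤ _ := h2
      _ ≤ qk.eval (sz x) * (4 * qn.eval (sz x) + 2) + 1 := by
        apply Nat.add_le_add_right
        exact Nat.mul_le_mul (h3.trans h8) (by omega)
  have pfin : Poly (fun x : List Bool =>
      ((level (G x) D (K x))^[V.n x] [[]]).any (fun w => V.V x w)) :=
    Poly.any (p := fun x w => V.V x w) palg V.hV
  refine ⟨_, polyTime_of_poly pfin, fun x => ?_⟩
  rw [hV x, alg_correct (hinv x (V.n x) le_rfl)]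
  simp

end Pool.Agent.H334R5.Clo
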