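import Pool.Agent.H334R5.Clo.Comb
import Pool.Agent.H251R5.PQ.T_PAD

/-!
# The algorithm and its correctness
-/

set_option autoImplicit false

namespace Pool.Agent.H334R5.Clo

open Pool.Agent.NPC
open Pool.Agent.H251R5.PQ (Ver)

/-- The number with the given binary digits, most significant digit first. -/
def num (l : List Bool) : ℕ := valB l.reverse

theorem num_append (l l' : List Bool) : num (l ++ l') = 2 ^ l'.length * num l + num l' := by
  unfold num
  rw [List.reverse_append, valB_append]
  simp
  ring

theorem num_lt (l : List Bool) : num l < 2 ^ l.length := by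
  have := valB_lt l.reverse
  simpa [num] using this

theorem num_snoc (l : List Bool) (b : Bool) : num (l ++ [b]) = 2 * num l + (if b then 1 else 0) := by
  rw [num_append]
  simp [num]

theorem num_take_mono {w w' : List Bool} (hl : w.length = w'.length) (h : num w ≤ num w') (i : ℕ) :
    num (w.take i) ≤ num (w'.take i) := by
  have h1 := num_append (w.take i) (w.drop i)
  have h2 := num_append (w'.take i) (w'.drop i)
  rw [List.take_append_drop] at h1 h2
  have h3 := num_lt (w'.drop i)
  have h4 : (w.drop i).length = (w'.drop i).length := by simp [hl]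
  rw [h4] at h1
  rw [h1, h2] at h
  by_contra hcon
  push Not at hcon
  have h5 : num (w'.take i) + 1 ≤ num (w.take i) := hcon
  have h6 : 2 ^ (w'.drop i).length * (num (w'.take i) + 1) ≤ 2 ^ (w'.drop i).length * num (w.take i) :=
    Nat.mul_le_mul_left _ h5
  rw [mul_add, mul_one] at h6
  omega

theorem num_inj : ∀ {u v : List Bool}, u.length = v.length → num u = num v → u = v := by
  intro u
  induction u using List.reverseRecOn with
  | nil => intro v h _; exact (List.length_eq_zero_iff.1 h.symm).symm
  | append_singleton u b ih =>
    intro v h hn
    rcases List.eq_nil_or_concat v with rfl | ⟨v, c, rfl⟩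
    · simp at h
    · rw [List.concat_eq_append] at h hn ⊢
      rw [num_snoc, num_snoc] at hn
      simp only [List.length_append, List.length_cons, List.length_nil] at h
      have hb : b = c := by cases b <;> cases c <;> simp at hn ⊢ <;> omega
      subst hb
      have h1 : u.length = v.length := by omega
      have h2 : num u = num v := by omega
      rw [ih h1 h2]

/-! ### Pruning -/

section Prune

variable (G : List Bool → Bool × List (List Bool)) (D : List (List Bool) → List Bool → Bool)

/-- prune if the list is longer than `K` -/
def pstep (K : ℕ) (C : List (List Bool)) : List (List Bool) :=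
  if K < C.length then prune G D C else C

theorem prune_cases (C : List (List Bool)) : prune G D C = C ∨
    ∃ (A : List (List Bool)) (u : List Bool) (B : List (List Bool)), C = A ++ u :: B ∧
      test G D A u B = true ∧ prune G D C = A ++ B := by
  unfold prune
  cases h : ((List.range C.length).filter (testAt G D C)).head? with
  | none => left; rfl
  | some t =>
    right
    have h1 := List.mem_of_mem_head? h
    rw [List.mem_filter, List.mem_range] at h1
    obtain ⟨ht, h2⟩ := h1
    unfold testAt at h2
    have h3 : C.drop t = C[t] :: C.drop (t + 1) := List.drop_eq_getElem_cons ht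
    rw [h3, List.head?_cons, Option.elim_some] at h2
    refine ⟨C.take t, C[t], C.drop (t + 1), ?_, h2, rfl⟩
    rw [← h3, List.take_append_drop]

theorem prune_length {C : List (List Bool)} (h : ∃ (A : List (List Bool)) (u : List Bool)
    (B : List (List Bool)), C = A ++ u :: B ∧ test G D A u B = true) :
    (prune G D C).length + 1 = C.length := by
  obtain ⟨A, u, B, hC, ht⟩ := h
  have hmem : A.length ∈ (List.range C.length).filter (testAt G D C) := by
    rw [List.mem_filter, List.mem_range]
    refine ⟨by rw [hC]; simp, ?_⟩
    unfold testAt
    have h1 : C.drop A.length = u :: B := by rw [hC]; simp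
    have h2 : C.take A.length = A := by rw [hC]; simp
    have h3 : C.drop (A.length + 1) = B := by rw [hC]; simp
    rw [h1, h2, h3]
    simpa using ht
  unfold prune
  cases h : ((List.range C.length).filter (testAt G D C)).head? with
  | none =>
    rw [List.head?_eq_none_iff] at h
    rw [h] at hmem
    simp at hmem
  | some t =>
    have h1 := List.mem_of_mem_head? h
    rw [List.mem_filter, List.mem_range] at h1
    simp only [Option.elim_some, List.length_append, List.length_take, List.length_drop]
    omega

theorem prune_sublist (C : List (List Bool)) : (prune G D C).Sublist C := by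
  rcases prune_cases G D C with h | ⟨A, u, B, h, -, h2⟩
  · rw [h]
  · rw [h2, h]
    exact (List.Sublist.refl A).append (List.sublist_cons_self u B)

theorem pstep_sublist (K : ℕ) (C : List (List Bool)) : (pstep G D K C).Sublist C := by
  unfold pstep
  split_ifs
  · exact prune_sublist G D C
  · exact List.Sublist.refl C

theorem pstep_iter_sublist (K k : ℕ) (C : List (List Bool)) :
    ((pstep G D K)^[k] C).Sublist C := by
  induction k generalizing C with
  | zero => exact List.Sublist.refl C
  | succ k ih =>
    rw [Function.iterate_succ_apply]
    exact (ih _).trans (pstep_sublist G D K C)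

end Prune

/-! ### The algorithm -/

/-- extend all prefixes by one bit -/
def ext (C : List (List Bool)) : List (List Bool) := C.flatMap (fun u => [u ++ [false], u ++ [true]])

/-- one level: extend and prune -/
def level (G : List Bool → Bool × List (List Bool)) (D : List (List Bool) → List Bool → Bool)
    (K : ℕ) (C : List (List Bool)) : List (List Bool) :=
  (pstep G D K)^[(ext C).length] (ext C)

/-- `u` is at most the prefix of some witness for `x` -/
def Left (V : Ver) (t : List Bool × List Bool) : Prop :=
  ∃ w : List Bool, w.length = V.n t.1 ∧ V.V t.1 w = true ∧ num t.2 ≤ num (w.take t.2.length)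

theorem ext_length (C : List (List Bool)) : (ext C).length = 2 * C.length := by
  unfold ext
  induction C with
  | nil => rfl
  | cons u C ih => simp only [List.flatMap_cons, List.length_append, ih, List.length_cons,
      List.length_nil]; omega

theorem mem_ext {C : List (List Bool)} {v : List Bool} :
    v ∈ ext C ↔ ∃ u ∈ C, ∃ b : Bool, v = u ++ [b] := by
  unfold ext
  rw [List.mem_flatMap]
  constructor
  · rintro ⟨u, hu, hv⟩
    simp only [List.mem_cons, List.not_mem_nil, or_false] at hv
    rcases hv with hv | hv
    · exact ⟨u, hu, false, hv⟩
    · exact ⟨u, hu, true, hv⟩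
  · rintro ⟨u, hu, b, hv⟩
    refine ⟨u, hu, ?_⟩
    cases b <;> simp [hv]

theorem ext_sorted {C : List (List Bool)} (h : C.Pairwise (fun v w => num v < num w)) :
    (ext C).Pairwise (fun v w => num v < num w) := by
  unfold ext
  rw [List.pairwise_flatMap]
  constructor
  · intro u _
    simp [num_snoc]
  · refine h.imp ?_
    intro u v huv x hx y hy
    simp only [List.mem_cons, List.not_mem_nil, or_false] at hx hy
    rcases hx with rfl | rfl <;> rcases hy with rfl | rfl <;> simp only [num_snoc] <;> simp <;> omega

/-- The invariant at the level `i`. -/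
structure Inv (V : Ver) (x : List Bool) (K i : ℕ) (C : List (List Bool)) : Prop where
  len : ∀ u ∈ C, u.length = i
  sorted : C.Pairwise (fun v w => num v < num w)
  short : C.length ≤ K
  mem : ∀ w : List Bool, w.length = V.n x → V.V x w = true →
    (∀ w' : List Bool, w'.length = V.n x → V.V x w' = true → num w' ≤ num w) → w.take i ∈ C

theorem level_inv {V : Ver} {S : Set (List Bool)} {D : List (List Bool) → List Bool → Bool}
    {D' : List (List Bool) → List Bool → Prop} (hD : ∀ Z z, D Z z = true ↔ D' Z z)
    (hmono : Monotone' D') (hclosed : ClosedUnder D' S) (n p : ℕ)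
    (hchain : ∀ Z : List (List Bool), (∀ z ∈ Z, z.length ≤ n) → p < Z.length →
      ∃ (A : List (List Bool)) (z : List Bool) (B : List (List Bool)), Z = A ++ z :: B ∧ D' A z)
    (x : List Bool) {G : List Bool → Bool × List (List Bool)}
    (hG : ∀ u, Left V (x, u) ↔ ((∀ y ∈ (G u).2, y ∈ S) ↔ (G u).1 = true))
    {K i : ℕ} (hK : 2 * p + 1 ≤ K) {C : List (List Bool)} (hi : i < V.n x)
    (hlen : ∀ u : List Bool, u.length = i + 1 → ∀ z ∈ (G u).2, z.length ≤ n)
    (h : Inv V x K i C) : Inv V x K (i + 1) (level G D K C) := by
  have hsub := pstep_iter_sublist G D K (ext C).length (ext C)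
  have hlenE : ∀ u ∈ ext C, u.length = i + 1 := by
    intro u hu
    obtain ⟨v, hv, b, rfl⟩ := mem_ext.1 hu
    simp [h.len v hv]
  refine ⟨fun u hu => hlenE u (hsub.subset hu), (ext_sorted h.sorted).sublist hsub, ?_, ?_⟩
  · -- length
    have key : ∀ (k : ℕ) (E : List (List Bool)), (∀ u ∈ E, u.length = i + 1) →
        E.length ≤ K + k → ((pstep G D K)^[k] E).length ≤ K := by
      intro k
      induction k with
      | zero => intro E _ h2; simpa using h2
      | succ k ih =>
        intro E h1 h2
        rw [Function.iterate_succ_apply]
        refine ih _ (fun u hu => h1 u ((pstep_sublist G D K E).subset hu)) ?_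
        unfold pstep
        split_ifs with h3
        · have := prune_length G D (C := E) (test_complete hD hmono n p hchain E
            (fun u hu => hlen u (h1 u hu)) (by omega))
          omega
        · omega
    exact key _ _ hlenE (by omega)
  · -- the maximal witness
    intro w hw hV hmax
    have hmemE : w.take (i + 1) ∈ ext C := by
      rw [mem_ext]
      refine ⟨w.take i, h.mem w hw hV hmax, w[i]'(by omega), ?_⟩
      rw [List.take_append_getElem]
    have hleft : ∀ u : List Bool, u.length = i + 1 →
        (num u ≤ num (w.take (i + 1)) ↔ Left V (x, u)) := by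
      intro u hu
      constructor
      · intro h1
        exact ⟨w, hw, hV, by rw [hu]; exact h1⟩
      · rintro ⟨w', hw', hV', h1⟩
        simp only at hw' hV' h1
        rw [hu] at h1
        exact h1.trans (num_take_mono (by rw [hw, hw']) (hmax w' hw' hV') (i + 1))
    have key : ∀ (k : ℕ) (E : List (List Bool)), (∀ u ∈ E, u.length = i + 1) →
        E.Pairwise (fun v w => num v < num w) → w.take (i + 1) ∈ E →
        w.take (i + 1) ∈ (pstep G D K)^[k] E := by
      intro k
      induction k with
      | zero => intro E _ _ h2; simpa using h2
      | succ k ih =>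
        intro E h1 h2 h3
        rw [Function.iterate_succ_apply]
        refine ih _ (fun u hu => h1 u ((pstep_sublist G D K E).subset hu))
          (h2.sublist (pstep_sublist G D K E)) ?_
        unfold pstep
        split_ifs with h4
        · rcases prune_cases G D E with h5 | ⟨A, u, B, h5, h6, h7⟩
          · rw [h5]; exact h3
          · rw [h7]
            subst h5
            have h8 : num u ≠ num (w.take (i + 1)) := test_sound (S := S) num _
              (fun Z z hZ hz => hclosed Z z hZ ((hD Z z).1 hz))
              (fun v hv => (hleft v (h1 v hv)).trans (hG v)) h2 h6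
            rw [List.mem_append, List.mem_cons] at h3
            rw [List.mem_append]
            rcases h3 with h3 | h3 | h3
            · exact Or.inl h3
            · exact absurd (congrArg num h3).symm h8
            · exact Or.inr h3
        · exact h3
    exact key _ _ hlenE (ext_sorted h.sorted) hmemE

/-- The invariant holds at all levels. -/
theorem alg_inv {V : Ver} {S : Set (List Bool)} {D : List (List Bool) → List Bool → Bool}
    {D' : List (List Bool) → List Bool → Prop} (hD : ∀ Z z, D Z z = true ↔ D' Z z)
    (hmono : Monotone' D') (hclosed : ClosedUnder D' S) (n p : ℕ)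
    (hchain : ∀ Z : List (List Bool), (∀ z ∈ Z, z.length ≤ n) → p < Z.length →
      ∃ (A : List (List Bool)) (z : List Bool) (B : List (List Bool)), Z = A ++ z :: B ∧ D' A z)
    (x : List Bool) {G : List Bool → Bool × List (List Bool)}
    (hG : ∀ u, Left V (x, u) ↔ ((∀ y ∈ (G u).2, y ∈ S) ↔ (G u).1 = true))
    {K : ℕ} (hK : 2 * p + 1 ≤ K)
    (hlen : ∀ u : List Bool, u.length ≤ V.n x → ∀ z ∈ (G u).2, z.length ≤ n) :
    ∀ i ≤ V.n x, Inv V x K i ((level G D K)^[i] [[]]) := by
  intro i
  induction i with
  | zero =>
    intro _
    refine ⟨by simp, by simp, by simp; omega, fun w _ _ _ => by simp⟩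
  | succ i ih =>
    intro hi
    rw [Function.iterate_succ_apply']
    exact level_inv hD hmono hclosed n p hchain x hG hK (by omega)
      (fun u hu => hlen u (by omega)) (ih (by omega))

/-- Correctness of the algorithm. -/
theorem alg_correct {V : Ver} {x : List Bool} {K : ℕ} {C : List (List Bool)}
    (hfin : Inv V x K (V.n x) C) :
    (∃ w : List Bool, w.length = V.n x ∧ V.V x w = true) ↔
      C.any (fun w => V.V x w) = true := by
  rw [List.any_eq_true]
  constructor
  · rintro ⟨w0, hw0, hV0⟩
    -- a maximal witness
    obtain ⟨w, ⟨hw, hV⟩, hmax⟩ : ∃ w : List Bool, (w.length = V.n x ∧ V.V x w = true) ∧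
        ∀ w' : List Bool, (w'.length = V.n x ∧ V.V x w' = true) → num w' ≤ num w := by
      have hfinite : {w : List Bool | w.length = V.n x ∧ V.V x w = true}.Finite :=
        (List.finite_length_eq Bool (V.n x)).subset (fun w hw => hw.1)
      obtain ⟨w, hw, hmax⟩ := Set.exists_max_image _ num hfinite ⟨w0, hw0, hV0⟩
      exact ⟨w, hw, fun w' hw' => hmax w' hw'⟩
    refine ⟨w, ?_, hV⟩
    have h1 := hfin.mem w hw hV (fun w' h1 h2 => hmax w' ⟨h1, h2⟩)
    rwa [← hw, List.take_length] at h1
  · rintro ⟨w, hw, hV⟩
    exact ⟨w, hfin.len w hw, hV⟩

end Pool.Agent.H334R5.Clo
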