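import Pool.Agent.H334R5.Clo.Defs

/-!
# The combinatorial part: pruning a sorted list of candidates
-/

set_option autoImplicit false

namespace Pool.Agent.H334R5.Clo

/-- The premises with positive sign. -/
def posZ (G : List Bool → Bool × List (List Bool)) (A : List (List Bool)) : List (List Bool) :=
  A.flatMap (fun u => bif (G u).1 then (G u).2 else [])

/-- The premises with negative sign. -/
def negZ (G : List Bool → Bool × List (List Bool)) (A : List (List Bool)) : List (List Bool) :=
  A.flatMap (fun u => bif (G u).1 then [] else (G u).2)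

/-- The test which excludes the candidate `u` in the list `A ++ u :: B`. -/
def test (G : List Bool → Bool × List (List Bool)) (D : List (List Bool) → List Bool → Bool)
    (A : List (List Bool)) (u : List Bool) (B : List (List Bool)) : Bool :=
  (B.head?.elim false (fun v => (G v).1 && (G v).2.all (fun y => D (posZ G (A ++ [u])) y))) ||
    (!(G u).1 && (G u).2.all (fun y => D (negZ G B) y))

/-- The test at the position `t`. -/
def testAt (G : List Bool → Bool × List (List Bool)) (D : List (List Bool) → List Bool → Bool)
    (C : List (List Bool)) (t : ℕ) : Bool :=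
  (C.drop t).head?.elim false (fun u => test G D (C.take t) u (C.drop (t + 1)))

/-- Remove the first candidate excluded by the test. -/
def prune (G : List Bool → Bool × List (List Bool)) (D : List (List Bool) → List Bool → Bool)
    (C : List (List Bool)) : List (List Bool) :=
  ((List.range C.length).filter (testAt G D C)).head?.elim C
    (fun t => C.take t ++ C.drop (t + 1))

variable {G : List Bool → Bool × List (List Bool)} {D : List (List Bool) → List Bool → Bool}
  {S : Set (List Bool)}

theorem mem_posZ {A : List (List Bool)} {y : List Bool} :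
    y ∈ posZ G A ↔ ∃ u ∈ A, (G u).1 = true ∧ y ∈ (G u).2 := by
  unfold posZ
  rw [List.mem_flatMap]
  constructor
  · rintro ⟨u, hu, hy⟩
    cases h : (G u).1 with
    | true => rw [h] at hy; exact ⟨u, hu, h, hy⟩
    | false => rw [h] at hy; simp at hy
  · rintro ⟨u, hu, h, hy⟩
    exact ⟨u, hu, by rw [h]; exact hy⟩

theorem mem_negZ {A : List (List Bool)} {y : List Bool} :
    y ∈ negZ G A ↔ ∃ u ∈ A, (G u).1 = false ∧ y ∈ (G u).2 := by
  unfold negZ
  rw [List.mem_flatMap]
  constructor
  · rintro ⟨u, hu, hy⟩
    cases h : (G u).1 with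
    | true => rw [h] at hy; simp at hy
    | false => rw [h] at hy; exact ⟨u, hu, h, hy⟩
  · rintro ⟨u, hu, h, hy⟩
    exact ⟨u, hu, by rw [h]; exact hy⟩

/-- Soundness of the test. -/
theorem test_sound (num : List Bool → ℕ) (m : ℕ)
    (hclosed : ∀ (Z : List (List Bool)) (z : List Bool), (∀ y ∈ Z, y ∈ S) → D Z z = true → z ∈ S)
    {A : List (List Bool)} {u : List Bool} {B : List (List Bool)}
    (hG : ∀ v ∈ A ++ u :: B, (num v ≤ m ↔ ((∀ y ∈ (G v).2, y ∈ S) ↔ (G v).1 = true)))
    (hsort : (A ++ u :: B).Pairwise (fun v w => num v < num w))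
    (ht : test G D A u B = true) : num u ≠ m := by
  intro hm
  rw [List.pairwise_append, List.pairwise_cons] at hsort
  obtain ⟨hA, ⟨huB, hB⟩, hAB⟩ := hsort
  unfold test at ht
  rw [Bool.or_eq_true] at ht
  rcases ht with ht | ht
  · cases B with
    | nil => simp at ht
    | cons v B =>
      simp only [List.head?_cons, Option.elim_some, Bool.and_eq_true, List.all_eq_true] at ht
      obtain ⟨hv, hall⟩ := ht
      have hv' : ∀ y ∈ (G v).2, y ∈ S := by
        intro y hy
        refine hclosed _ y ?_ (hall y hy)
        intro z hz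
        rw [mem_posZ] at hz
        obtain ⟨w, hw, hw1, hw2⟩ := hz
        have hwle : num w ≤ m := by
          rw [List.mem_append, List.mem_singleton] at hw
          rcases hw with hw | hw
          · have := hAB w hw u (by simp)
            omega
          · rw [hw]; omega
        have := (hG w (by
          rw [List.mem_append, List.mem_singleton] at hw
          rcases hw with hw | hw <;> simp [hw])).1 hwle
        exact this.2 hw1 z hw2
      have h1 : num v ≤ m := (hG v (by simp)).2 ⟨fun _ => hv, fun _ => hv'⟩
      have h2 := huB v (by simp)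
      omega
  · simp only [Bool.and_eq_true, Bool.not_eq_true', List.all_eq_true] at ht
    obtain ⟨hu, hall⟩ := ht
    have hu' : ∀ y ∈ (G u).2, y ∈ S := by
      intro y hy
      refine hclosed _ y ?_ (hall y hy)
      intro z hz
      rw [mem_negZ] at hz
      obtain ⟨w, hw, hw1, hw2⟩ := hz
      have hwgt : ¬ num w ≤ m := by
        have := huB w hw
        omega
      by_contra hzS
      apply hwgt
      refine (hG w (by simp [hw])).2 ⟨fun h => absurd (h z hw2) hzS, fun h => ?_⟩
      rw [hw1] at h
      simp at h
    have h1 := ((hG u (by simp)).1 (by omega)).1 hu'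
    rw [hu] at h1
    simp at h1

/-- From strings to lists of strings. -/
theorem chain_lists {D : List (List Bool) → List Bool → Prop} (hmono : Monotone' D) (n p : ℕ)
    (hchain : ∀ Z : List (List Bool), (∀ z ∈ Z, z.length ≤ n) → p < Z.length →
      ∃ (A : List (List Bool)) (z : List Bool) (B : List (List Bool)), Z = A ++ z :: B ∧ D A z)
    (Zs : List (List (List Bool))) (hlen : ∀ Z ∈ Zs, ∀ z ∈ Z, z.length ≤ n)
    (hp : p < Zs.length) :
    ∃ (As : List (List (List Bool))) (Z : List (List Bool)) (Bs : List (List (List Bool))),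
      Zs = As ++ Z :: Bs ∧ ∀ y ∈ Z, D As.flatten y := by
  by_contra hcon
  push Not at hcon
  have key : ∀ As : List (List (List Bool)), As <+: Zs → ∃ Y : List (List Bool),
      Y.length = As.length ∧ Y ⊆ As.flatten ∧
        ∀ (A : List (List Bool)) (z : List Bool) (B : List (List Bool)), Y = A ++ z :: B →
          ¬ D A z := by
    intro As
    induction As using List.reverseRecOn with
    | nil =>
      intro _
      refine ⟨[], rfl, by simp, ?_⟩
      intro A z B h
      simp at h
    | append_singleton As Z ih =>
      intro hpre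
      obtain ⟨Bs, hBs⟩ := hpre
      obtain ⟨Y, hY1, hY2, hY3⟩ := ih ⟨Z :: Bs, by rw [← hBs]; simp⟩
      obtain ⟨y, hy, hyD⟩ := hcon As Z Bs (by rw [← hBs]; simp)
      refine ⟨Y ++ [y], by simp [hY1], ?_, ?_⟩
      · intro z hz
        rw [List.mem_append, List.mem_singleton] at hz
        rw [List.flatten_append, List.mem_append]
        rcases hz with hz | rfl
        · exact Or.inl (hY2 hz)
        · right; simpa using hy
      · intro A z B h
        rcases List.eq_nil_or_concat B with rfl | ⟨B', b, rfl⟩
        · have h1 : Y = A ∧ [y] = [z] := List.append_inj' h (by simp)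
          obtain ⟨rfl, h2⟩ := h1
          obtain rfl : y = z := by simpa using h2
          intro hD
          exact hyD (hmono _ _ _ hY2 hD)
        · have h1 : Y ++ [y] = (A ++ z :: B') ++ [b] := by rw [h]; simp
          have h2 := (List.append_inj' h1 (by simp)).1
          exact hY3 A z B' h2
  obtain ⟨Y, hY1, hY2, hY3⟩ := key Zs (List.prefix_refl _)
  obtain ⟨A, z, B, h1, h2⟩ := hchain Y (by
    intro z hz
    obtain ⟨Z, hZ, hz'⟩ := List.mem_flatten.1 (hY2 hz)
    exact hlen Z hZ z hz') (by omega)
  exact hY3 A z B h1 h2

/-- Completeness of the test. -/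
theorem test_complete {D' : List (List Bool) → List Bool → Prop}
    (hD : ∀ Z z, D Z z = true ↔ D' Z z) (hmono : Monotone' D') (n p : ℕ)
    (hchain : ∀ Z : List (List Bool), (∀ z ∈ Z, z.length ≤ n) → p < Z.length →
      ∃ (A : List (List Bool)) (z : List Bool) (B : List (List Bool)), Z = A ++ z :: B ∧ D' A z)
    (C : List (List Bool)) (hlen : ∀ u ∈ C, ∀ z ∈ (G u).2, z.length ≤ n)
    (hp : 2 * p + 1 < C.length) :
    ∃ (A : List (List Bool)) (u : List Bool) (B : List (List Bool)),
      C = A ++ u :: B ∧ test G D A u B = true := by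
  cases C with
  | nil => simp at hp
  | cons u0 C =>
    simp only [List.length_cons] at hp
    have hlen' : ∀ u ∈ C, ∀ z ∈ (G u).2, z.length ≤ n := fun u hu => hlen u (by simp [hu])
    have hsplit : (C.filter (fun u => (G u).1)).length +
        (C.filter (fun u => !(G u).1)).length = C.length := by
      have := List.length_eq_length_filter_add (l := C) (fun u => (G u).1)
      exact this.symm
    by_cases hP : p < (C.filter (fun u => (G u).1)).length
    · obtain ⟨As, Z, Bs, h1, h2⟩ := chain_lists hmono n p hchain
        ((C.filter (fun u => (G u).1)).map (fun u => (G u).2)) (by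
          intro Z hZ z hz
          rw [List.mem_map] at hZ
          obtain ⟨u, hu, rfl⟩ := hZ
          exact hlen' u (List.mem_filter.1 hu).1 z hz) (by simpa using hP)
      rw [List.map_eq_append_iff] at h1
      obtain ⟨P1, P2', hP1, rfl, h3⟩ := h1
      rw [List.map_eq_cons_iff] at h3
      obtain ⟨v, P2, rfl, rfl, rfl⟩ := h3
      rw [List.filter_eq_append_iff] at hP1
      obtain ⟨C1, C2', rfl, hC1, hC2'⟩ := hP1
      rw [List.filter_eq_cons_iff] at hC2'
      obtain ⟨C3, C2, rfl, hC3, hv, hC2⟩ := hC2'
      -- everything before `v`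
      obtain ⟨A, u, hAu⟩ : ∃ A u, u0 :: (C1 ++ C3) = A ++ [u] := by
        refine ⟨(u0 :: (C1 ++ C3)).dropLast, (u0 :: (C1 ++ C3)).getLast (by simp), ?_⟩
        rw [List.dropLast_append_getLast]
      refine ⟨A, u, v :: C2, ?_, ?_⟩
      · have : A ++ u :: v :: C2 = (A ++ [u]) ++ v :: C2 := by simp
        rw [this, ← hAu]
        simp
      · unfold test
        rw [Bool.or_eq_true]
        left
        simp only [List.head?_cons, Option.elim_some, Bool.and_eq_true, List.all_eq_true]
        refine ⟨hv, fun y hy => ?_⟩
        rw [hD]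
        refine hmono _ _ _ ?_ (h2 y hy)
        intro z hz
        rw [← hAu, mem_posZ]
        rw [List.mem_flatten] at hz
        obtain ⟨l, hl, hz⟩ := hz
        rw [List.mem_map] at hl
        obtain ⟨w, hw, rfl⟩ := hl
        rw [← hC1, List.mem_filter] at hw
        exact ⟨w, by simp [hw.1], hw.2, hz⟩
    · have hN : p < (C.filter (fun u => !(G u).1)).length := by omega
      obtain ⟨As, Z, Bs, h1, h2⟩ := chain_lists hmono n p hchain
        ((C.filter (fun u => !(G u).1)).reverse.map (fun u => (G u).2)) (by
          intro Z hZ z hz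
          rw [List.mem_map] at hZ
          obtain ⟨u, hu, rfl⟩ := hZ
          rw [List.mem_reverse] at hu
          exact hlen' u (List.mem_filter.1 hu).1 z hz) (by simpa using hN)
      rw [List.map_eq_append_iff] at h1
      obtain ⟨P1, P2', hP1, rfl, h3⟩ := h1
      rw [List.map_eq_cons_iff] at h3
      obtain ⟨v, P2, rfl, rfl, rfl⟩ := h3
      rw [List.reverse_eq_iff] at hP1
      rw [List.reverse_append, List.reverse_cons, List.append_assoc, List.singleton_append,
        List.filter_eq_append_iff] at hP1
      obtain ⟨C1, C2', rfl, hC1, hC2'⟩ := hP1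
      rw [List.filter_eq_cons_iff] at hC2'
      obtain ⟨C3, C2, rfl, hC3, hv, hC2⟩ := hC2'
      refine ⟨u0 :: (C1 ++ C3), v, C2, by simp, ?_⟩
      unfold test
      rw [Bool.or_eq_true]
      right
      simp only [Bool.and_eq_true, List.all_eq_true]
      refine ⟨hv, fun y hy => ?_⟩
      rw [hD]
      refine hmono _ _ _ ?_ (h2 y hy)
      intro z hz
      rw [mem_negZ]
      rw [List.mem_flatten] at hz
      obtain ⟨l, hl, hz⟩ := hz
      rw [List.mem_map] at hl
      obtain ⟨w, hw, rfl⟩ := hl
      rw [← List.mem_reverse, ← hC2, List.mem_filter] at hw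
      exact ⟨w, hw.1, by simpa using hw.2, hz⟩

end Pool.Agent.H334R5.Clo
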