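import Pool.Agent.NPC.Dec

/-!
# Inference rules with short chains, closed sets, signed conjunctive reductions

Polynomial time is Mathlib's `Turing.TM2ComputableInPolyTime` (through `Pool.Agent.NPC.PolyTime`).
-/

set_option autoImplicit false

namespace Pool.Agent.H334R5.Clo

open Pool.Agent.NPC

/-- A rule: a relation between finite lists of strings (the premises) and strings (the
conclusion). It is monotone if adding premises keeps the conclusions. -/
def Monotone' (D : List (List Bool) → List Bool → Prop) : Prop :=
  ∀ (Z Z' : List (List Bool)) (z : List Bool), Z ⊆ Z' → D Z z → D Z' z

/-- A rule has short chains if there is a polynomial `p` such that in every list of more than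
`p n` strings of length at most `n` some entry follows from the entries before it. -/
def ShortChains (D : List (List Bool) → List Bool → Prop) : Prop :=
  ∃ p : Polynomial ℕ, ∀ (n : ℕ) (Z : List (List Bool)), (∀ z ∈ Z, z.length ≤ n) →
    p.eval n < Z.length → ∃ (A : List (List Bool)) (z : List Bool) (B : List (List Bool)),
      Z = A ++ z :: B ∧ D A z

/-- The set `S` is closed under the rule `D`. -/
def ClosedUnder (D : List (List Bool) → List Bool → Prop) (S : Set (List Bool)) : Prop :=
  ∀ (Z : List (List Bool)) (z : List Bool), (∀ y ∈ Z, y ∈ S) → D Z z → z ∈ S

/-- `A` reduces to `S` by a polynomial-time signed conjunctive reduction: a polynomial-time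
computable function maps each string `x` to a sign and a list of strings, such that `x ∈ A` iff
all strings of the list are in `S` (if the sign is `true`), respectively iff some string of the
list is not in `S` (if the sign is `false`). -/
def SignedConjReduces (A S : Set (List Bool)) : Prop :=
  ∃ r : List Bool → Bool × List (List Bool), PolyTime (fun x => bits (r x)) ∧
    ∀ x, x ∈ A ↔ ((∀ y ∈ (r x).2, y ∈ S) ↔ (r x).1 = true)

end Pool.Agent.H334R5.Clo
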